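import Pool.Agent.Q173.PT.Iitaka

/-!
# Iitaka's conjecture for fibrations with fibre and base almost of general type
-/

set_option autoImplicit false

open Pool.Agent.Q173.PT

namespace Pool.Agent.Results.MP_f72953_ag.AlmostGeneralType

universe u

theorem result {V : Type u} (G : FibData V) (hG : G.IsKnown) :
    (∀ (N D r : ℕ) (h : ℕ → ℕ), 1 ≤ N → N ≤ r →
      (∀ f, G.Almost D h r f → G.Ge f (G.kF f + G.kB f - (G.defect f : ℝ) / (2 * N))) →
      ∀ f, G.dF f + G.dB f ≤ N → G.Iitaka f) ∧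
    ((∀ f, G.Iitaka f) ↔ ∀ ε : ℝ, 0 < ε → ∀ r : ℕ, ∃ (D : ℕ) (h : ℕ → ℕ),
      ∀ f, G.Almost D h r f → G.Ge f (G.kF f + G.kB f - ε * G.defect f)) :=
  ⟨hG.level, hG.iitaka_iff⟩

end Pool.Agent.Results.MP_f72953_ag.AlmostGeneralType
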