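import Pool.Agent.Q26.CP.FourAll

/-!
# Iitaka's conjecture: effective subadditivity for pluricanonical images, and modulo primes

Fix a bounded type of fibrations `f : E → B`, e.g. the projective morphisms of projective manifolds
whose graph in `ℙ^N × ℙ^M` has a given Hilbert polynomial. The following are equivalent.

1. `κ(E) ≥ κ(F) + κ(B)` for all complex fibrations of this type.
2. For every `m` there is a number `n` such that for all fibrations of this type over all
   algebraically closed fields of characteristic zero and all `a`, `b`: if one of the maps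
   `|l K_F|`, `1 ≤ l ≤ m`, of the general fibre has an image of dimension at least `a` and one of the
   maps `|l K_B|`, `1 ≤ l ≤ m`, has an image of dimension at least `b`, then one of the maps
   `|l K_E|`, `1 ≤ l ≤ n`, has an image of dimension at least `a + b`.
3. For every `m` there is a number `n` such that the same holds for all fibrations of this type over
   `F̄_p`, for infinitely many primes `p`.
4. For every `m` there is a number `n` such that the same holds for all fibrations of this type over
   `F̄_p`, for all but finitely many primes `p`.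

If `dim E ≤ 6`, where the conjecture is known by work of Birkar, then 2, 3 and 4 hold. In
characteristic `p` the Kodaira dimension is not subadditive (Cascini, Ejiri, Kollár, Zhang), so that 4
says that in bounded families the counterexamples need larger and larger `m` when `p` grows.
-/

set_option autoImplicit false

namespace Pool.Agent.Results.MP_f72953_ag.EffectiveModPrimes

open Pool.Agent.Q26.CP

/-- The fibrations `f : E → B` of smooth projective varieties over algebraically closed fields `K`
with smooth general fibre `F`. There are bounded types `t : Ty`, with `dim t` the dimension of `E`;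
the fibrations of type `t` over `K` are parametrized by the points of `K ^ k t` with the property
`isFib t`. The property `imE t n c` says that the image of `E` under one of the maps `|l K_E|` with
`1 ≤ l ≤ n` has dimension at least `c`; `imF` and `imB` are the same for the general fibre and for
`B`. These are first-order properties of the parameters. Over the complex numbers `kodE`, `kodF` and
`kodB` are the Kodaira dimensions; `⊥` is `-∞`.

`kodE_iff`, `kodF_iff`, `kodB_iff` are the definition of the Kodaira dimension (for `F`: invariance of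
plurigenera), and `birkar` is the conjecture of Iitaka for `dim E ≤ 6`. -/
structure Fibrations where
  Ty : Type
  dim : Ty → ℕ
  k : Ty → ℕ
  isFib : ∀ t, Pred (k t)
  imE : ∀ t, ℕ → ℕ → Pred (k t)
  imF : ∀ t, ℕ → ℕ → Pred (k t)
  imB : ∀ t, ℕ → ℕ → Pred (k t)
  fo_isFib : ∀ t, IsFirstOrder (isFib t)
  fo_imE : ∀ t n c, IsFirstOrder (imE t n c)
  fo_imF : ∀ t n c, IsFirstOrder (imF t n c)
  fo_imB : ∀ t n c, IsFirstOrder (imB t n c)
  imE_mono : ∀ t (m n : ℕ), m ≤ n → ∀ c (K : Type) [Field K] (x : Fin (k t) → K),
    imE t m c K x → imE t n c K x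
  imF_mono : ∀ t (m n : ℕ), m ≤ n → ∀ c (K : Type) [Field K] (x : Fin (k t) → K),
    imF t m c K x → imF t n c K x
  imB_mono : ∀ t (m n : ℕ), m ≤ n → ∀ c (K : Type) [Field K] (x : Fin (k t) → K),
    imB t m c K x → imB t n c K x
  imF_le : ∀ t m c (K : Type) [Field K] (x : Fin (k t) → K), imF t m c K x → c ≤ dim t
  imB_le : ∀ t m c (K : Type) [Field K] (x : Fin (k t) → K), imB t m c K x → c ≤ dim t
  kodE : ∀ t, (Fin (k t) → ℂ) → WithBot ℕ
  kodF : ∀ t, (Fin (k t) → ℂ) → WithBot ℕ
  kodB : ∀ t, (Fin (k t) → ℂ) → WithBot ℕ
  kodE_iff : ∀ t x, isFib t ℂ x → ∀ c : ℕ, ((c : WithBot ℕ) ≤ kodE t x ↔ ∃ n, imE t n c ℂ x)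
  kodF_iff : ∀ t x, isFib t ℂ x → ∀ c : ℕ, ((c : WithBot ℕ) ≤ kodF t x ↔ ∃ n, imF t n c ℂ x)
  kodB_iff : ∀ t x, isFib t ℂ x → ∀ c : ℕ, ((c : WithBot ℕ) ≤ kodB t x ↔ ∃ n, imB t n c ℂ x)
  birkar : ∀ t, dim t ≤ 6 → ∀ x, isFib t ℂ x → kodF t x + kodB t x ≤ kodE t x

/-- Iitaka's conjecture for the complex fibrations of type `t` -/
def Iitaka (A : Fibrations) (t : A.Ty) : Prop :=
  ∀ x : Fin (A.k t) → ℂ, A.isFib t ℂ x → A.kodF t x + A.kodB t x ≤ A.kodE t x

/-- for all fibrations of type `t` over `K`: if a map `|l K_F|` and a map `|l' K_B|` with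
`1 ≤ l, l' ≤ m` have images of dimension at least `a` and `b`, then a map `|l K_E|` with `1 ≤ l ≤ n`
has an image of dimension at least `a + b` -/
def Effective (A : Fibrations) (t : A.Ty) (m n : ℕ) (K : Type) [Field K] : Prop :=
  ∀ x : Fin (A.k t) → K, A.isFib t K x → ∀ a b, A.imF t m a K x → A.imB t m b K x →
    A.imE t n (a + b) K x

/-- for every `m` there is an `n` which works for all algebraically closed fields of characteristic
zero -/
def UniformCharZero (A : Fibrations) (t : A.Ty) : Prop :=
  ∀ m, ∃ n, ∀ (K : Type) [Field K] [IsAlgClosed K] [CharZero K], Effective A t m n K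

/-- for every `m` there is an `n` which works for `F̄_p`, for infinitely many primes `p` -/
def UniformInfinitely (A : Fibrations) (t : A.Ty) : Prop :=
  ∀ m, ∃ n, {p : Nat.Primes | Effective A t m n (Fbar p)}.Infinite

/-- for every `m` there is an `n` which works for `F̄_p`, for all but finitely many primes `p` -/
def UniformAlmost (A : Fibrations) (t : A.Ty) : Prop :=
  ∀ m, ∃ n, {p : Nat.Primes | ¬ Effective A t m n (Fbar p)}.Finite

/-- effective subadditivity with given `m` as a `Problem` -/
def Fibrations.problem (A : Fibrations) (t : A.Ty) (m : ℕ) : Problem where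
  k := A.k t
  hyp _ := A.isFib t
  con n := fun K _ x => ∀ a ≤ A.dim t, ∀ b ≤ A.dim t, A.imF t m a K x → A.imB t m b K x →
    A.imE t n (a + b) K x
  fo_hyp _ := A.fo_isFib t
  fo_con n := IsFirstOrder.forall_le _ (fun a => IsFirstOrder.forall_le _ (fun b =>
    (A.fo_imF t m a).imp ((A.fo_imB t m b).imp (A.fo_imE t n (a + b)))) _) _
  hyp_anti _ _ _ _ _ _ hx := hx
  con_mono i j hij K _ x hx a ha b hb h1 h2 := A.imE_mono t i j hij _ K x (hx a ha b hb h1 h2)

theorem uniform_iff (A : Fibrations) (t : A.Ty) (m n : ℕ) (K : Type) [Field K] :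
    (A.problem t m).Uniform n K ↔ Effective A t m n K :=
  ⟨fun h x hx a b h1 h2 => h x hx a (A.imF_le t m a K x h1) b (A.imB_le t m b K x h2) h1 h2,
    fun h x hx a _ b _ h1 h2 => h x hx a b h1 h2⟩

theorem iitaka_iff (A : Fibrations) (t : A.Ty) :
    Iitaka A t ↔ ∀ m, (A.problem t m).Solved ℂ := by
  classical
  constructor
  · intro h m x hx
    have hx := hx 0
    have key : ∀ a b, ∃ n, A.imF t m a ℂ x → A.imB t m b ℂ x → A.imE t n (a + b) ℂ x := by
      intro a b
      by_cases h1 : A.imF t m a ℂ x
      · by_cases h2 : A.imB t m b ℂ x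
        · have h3 : ((a + b : ℕ) : WithBot ℕ) ≤ A.kodE t x := by
            refine le_trans ?_ (h x hx)
            push_cast
            exact add_le_add ((A.kodF_iff t x hx a).2 ⟨m, h1⟩) ((A.kodB_iff t x hx b).2 ⟨m, h2⟩)
          obtain ⟨n, hn⟩ := (A.kodE_iff t x hx (a + b)).1 h3
          exact ⟨n, fun _ _ => hn⟩
        · exact ⟨0, fun _ h => absurd h h2⟩
      · exact ⟨0, fun h => absurd h h1⟩
    choose g hg using key
    refine ⟨(Finset.range (A.dim t + 1)).sup fun a => (Finset.range (A.dim t + 1)).sup fun b =>
      g a b, fun a ha b hb h1 h2 => ?_⟩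
    refine A.imE_mono t (g a b) _ ?_ _ ℂ x (hg a b h1 h2)
    refine le_trans ?_ (Finset.le_sup (f := fun a => (Finset.range (A.dim t + 1)).sup fun b =>
      g a b) (Finset.mem_range.2 (by omega : a < A.dim t + 1)))
    exact Finset.le_sup (f := fun b => g a b) (Finset.mem_range.2 (by omega : b < A.dim t + 1))
  · intro h x hx
    rcases hF : A.kodF t x with _ | a
    · exact (WithBot.bot_add _).trans_le bot_le
    rcases hB : A.kodB t x with _ | b
    · exact (WithBot.add_bot _).trans_le bot_le
    obtain ⟨m1, h1⟩ := (A.kodF_iff t x hx a).1 hF.ge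
    obtain ⟨m2, h2⟩ := (A.kodB_iff t x hx b).1 hB.ge
    have h3 := A.imF_mono t m1 (max m1 m2) (le_max_left _ _) _ ℂ x h1
    have h4 := A.imB_mono t m2 (max m1 m2) (le_max_right _ _) _ ℂ x h2
    obtain ⟨n, hn⟩ := h (max m1 m2) x fun _ => hx
    have h5 := hn a (A.imF_le t _ a ℂ x h3) b (A.imB_le t _ b ℂ x h4) h3 h4
    have h6 := (A.kodE_iff t x hx (a + b)).2 ⟨n, h5⟩
    exact_mod_cast h6

/-- For each bounded type `t` of fibrations `E → B` the following are equivalent: Iitaka's
conjecture for all complex fibrations of type `t`; for every `m` there is an `n` such that for all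
fibrations of type `t` over algebraically closed fields of characteristic zero and all `a`, `b`, if
some `|l K_F|` and some `|l K_B|` with `1 ≤ l ≤ m` have images of dimension at least `a` and `b`, then
some `|l K_E|` with `1 ≤ l ≤ n` has an image of dimension at least `a + b`; for every `m` there is an
`n` with the same property over `F̄_p`, for infinitely many primes `p`; for every `m` there is such
an `n` for all but finitely many primes `p`. They are true if `dim E ≤ 6`. -/
theorem result (A : Fibrations) (t : A.Ty) :
    [Iitaka A t, UniformCharZero A t, UniformInfinitely A t, UniformAlmost A t].TFAE ∧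
    (A.dim t ≤ 6 → UniformCharZero A t ∧ UniformAlmost A t) := by
  have h0 : [Iitaka A t, UniformCharZero A t, UniformInfinitely A t, UniformAlmost A t].TFAE :=
    four_all (A.problem t) _ (iitaka_iff A t) (fun m n K _ => Effective A t m n K)
      (fun m n K _ => uniform_iff A t m n K)
  refine ⟨h0, fun h => ?_⟩
  have h1 : Iitaka A t := fun x hx => A.birkar t h x hx
  exact ⟨(h0.out 0 1).1 h1, (h0.out 0 3).1 h1⟩

end Pool.Agent.Results.MP_f72953_ag.EffectiveModPrimes
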