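import Pool.Agent.Q36.IK.Ha

/-!
# Iitaka's conjecture for the fibrations of varieties dominated by products

Let `W 1, ..., W s` be projective manifolds of dimensions `d i`, each of them one of the following:

* a curve of gonality at least `c i + 2` (so `c i = 0` for elliptic curves), or
* a manifold whose canonical map is generically finite; then let `c i = 0`, or more generally let the
  canonical forms of `W i` separate `c i + 1` points and tangent vectors in an open set.

Let `W 1 × ... × W s ⇢ X` be any dominant rational map of finite degree to a projective manifold `X` (not
necessarily a quotient by a group). For a general point `x` of `X` let `r_i` be the number of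
different `i`-th coordinates of the points over `x`, and for a set `Q` of indices let `r(Q)` be the
number of the points over `x` which have the same `j`-th coordinates as a given one of them for all `j`
outside `Q`. Assume that

* `2 r_i ≤ c i + 1` for all `i` in some set `B` (which may be empty), and
* for all `Q` disjoint from `B`: `r(Q) = 1`, or `2 r(Q) - 1 ≤ ∑ j ∈ Q, c j`.

For instance (`r(Q) = 1` for all `Q`) this holds for `X = W 1 × ... × W s`; if all `W i` are curves of
gonality `γ > 2` it holds for all maps of degree at most `(s (γ - 2) + 1) / 2` with equal `r_i = r` and
`r(Q) ≤ (|Q| (γ - 2) + 1) / 2`.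

The theorem. Let `h` be the sum of the dimensions of the factors which are not elliptic curves. Then
the canonical map of `X` has an image of dimension at least `h`, and for every dominant rational
map `X ⇢ B` to a projective manifold, with generic fibre `F`,

  `κ(F) + κ(B) ≤ h ≤ dim φ_{|K_X|}(X) ≤ κ(X)`.

So all fibrations of `X` satisfy Iitaka's conjecture, in the effective form
`dim φ_{|K_X|}(X) ≥ κ(F) + κ(B)` (if `κ(F), κ(B) ≥ 0`), with no condition for the fibre, the base or
the degree of the map, and all dimensions.

Proof of the first inequality. Let `M` be the function field of the product, `K` and `L` those of `B`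
and `X`. Let `η` be a pluricanonical form of `B` and `ω` a relative pluricanonical form of `X ⇢ B`. A
regular vector field `D` on an elliptic factor preserves all the valuation rings of `M` over the
function field of the product of the other factors, and it lifts to `M`. So the value of `η` on
the lifts of the vector fields has no poles over this function field, and is thus a function on the
product of the other factors. From this it follows that `D` maps `K` to `K`, if `η ≠ 0`, that
one can find a frame of relative vector fields with the same properties, and that all quotients of
pluricanonical forms of `B`, and the quotients of the relative pluricanonical forms up to a factor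
from `K`, are functions on the product of the factors which are not elliptic. The transcendence
degrees are then counted with the matroid of algebraic dependence.
-/

set_option autoImplicit false
set_option linter.overlappingInstances false

open FF IntermediateField Pool.Agent.W619.PQ Pool.Agent.W619.TW

namespace Pool.Agent.Results.MP_f72953_ag.FibrationsOfDominated

/-- Every nonconstant function on the curve with function field `F` has degree at least `γ`. -/
def GonalityGe (k F : Type) [Field k] [Field F] [Algebra k F] (γ : ℕ) : Prop :=
  ∀ b : F, Transcendental k b → γ ≤ Module.finrank k⟮b⟯ F

/-- The map given by the sections of the `m`-th multiple of the canonical class, for the (regular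
projective) varieties of dimension `n` over `k` with function field `K`, has an image of dimension at
least `h`: there are `h + 1` sections whose ratios to the first one are algebraically independent. -/
def ImageGe (k K : Type) [Field k] [Field K] [Algebra k K] (n m h : ℕ) : Prop :=
  ∃ ω : Fin (h + 1) → (Fin n → Derivation k K K) → K,
    (∀ l, IsSec k K n (fun _ => False) {1} m 0 (ω l)) ∧
    ∃ D, (∀ l, ω l D ≠ 0) ∧ AlgebraicIndependent k (fun l : Fin h => ω l.succ D / ω 0 D)

/-- The Kodaira dimension of the (regular projective) varieties of dimension `n` over `k` with function
field `K` is at least `h ≥ 0`. -/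
def KodairaGe (k K : Type) [Field k] [Field K] [Algebra k K] (n h : ℕ) : Prop :=
  ∃ m, 1 ≤ m ∧ ImageGe k K n m h

/-- The coefficients of the canonical forms of the projective manifold of dimension `d` with function
field `K`, with respect to the rational vector fields `E`. -/
def canonicalForms (k : Type) {K : Type} [Field k] [Field K] [Algebra k K] (d : ℕ)
    (E : Fin d → Derivation k K K) : Set K :=
  {f | ∃ η : (Fin d → Derivation k K K) → K, IsPluriForm k K d 1 η ∧
    (∀ u : Place k K, IsDivisorial u d → RegularAt u d η) ∧ η E = f}

/-- The canonical forms of the manifold with function field `K` separate `m` points and tangent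
vectors in an open set: let `φ i` be different generic points, with coordinates in a field `Ω`, with
multiplicities `1` or `2` of sum at most `m`, and `θ i` tangent vectors at the points of multiplicity
`2`; then the values at the `φ i` are linearly independent of each other and of the derivatives in
the directions `θ i ≠ 0`. (For the coefficients with respect to a frame `E`; this does not depend on
the choice of the frame.) -/
def Separates (k K : Type) [Field k] [Field K] [Algebra k K] (d m : ℕ) : Prop :=
  ∀ (y : Fin d → K) (E : Fin d → Derivation k K K), IsTranscendenceBasis k y →
    (∀ i j, E i (y j) = if i = j then 1 else 0) →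
    ∀ (Ω : Type) [Field Ω] [Algebra k Ω] (ι : Type) [Fintype ι] (φ : ι → (K →ₐ[k] Ω)) (μ : ι → ℕ)
      (c : ι → Ω) (θ : ι → (K →ₗ[k] Ω)), Function.Injective φ → (∀ i, μ i = 1 ∨ μ i = 2) →
      ∑ i, μ i ≤ m → (∀ i, ∀ a b, θ i (a * b) = φ i a * θ i b + φ i b * θ i a) →
      (∀ i, μ i = 1 → θ i = 0) →
      (∀ f ∈ canonicalForms k d E, ∑ i, (c i * φ i f + θ i f) = 0) → ∀ i, c i = 0 ∧ θ i = 0

/-- `W` is the function field of an elliptic curve: a curve with a vector field without zeros and
poles. -/
def IsEllipticCurve {k M : Type} [Field k] [Field M] [Algebra k M] (W : IntermediateField k M) :
    Prop :=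
  IsFF k W ∧ IsElliptic W

open scoped Classical in
/-- The sum of the dimensions `d i` of the factors which are not elliptic curves. -/
noncomputable def nonEllipticDim {k M : Type} [Field k] [Field M] [Algebra k M] {s : ℕ}
    (d : Fin s → ℕ) (W : Fin s → IntermediateField k M) : ℕ :=
  ∑ i ∈ Finset.univ.filter (fun i => ¬ IsEllipticCurve (W i)), d i

section

variable {k : Type} (L : Type) {M : Type} [Field k] [Field L] [Field M] [Algebra k L] [Algebra k M]
  [Algebra L M]

/-- The number of different coordinates in the factor with function field `F` on a general fibre of
`Z ⇢ X`: the degree over `X` of the image of `Z` in the product of `X` and the factor. -/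
noncomputable def coordinates (F : IntermediateField k M) : ℕ :=
  Module.finrank L (IntermediateField.adjoin L (F : Set M))

/-- The number of the points of a general fibre of `Z ⇢ X` with the same coordinates outside `Q` as a
given one: the degree of `Z` over its image in the product of `X` and the factors `j ∉ Q`. -/
noncomputable def agreeing {s : ℕ} (W : Fin s → IntermediateField k M) (Q : Finset (Fin s)) : ℕ :=
  Module.finrank (IntermediateField.adjoin L {z : M | ∃ j, j ∉ Q ∧ z ∈ W j}) M

end

/-- **Iitaka's conjecture for the fibrations of varieties dominated by products.** Let `W i` (`i < s`)
be the function fields of projective manifolds of dimensions `d i` over an algebraically closed field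
`k` of characteristic zero, each of them a curve of gonality at least `c i + 2` or a manifold with a
generically finite canonical map, where `c i = 0` or the canonical forms separate `c i + 1` points and
tangent vectors. Let `M` be the function field of the product `Z`, of dimension `∑ d i`, and `L` the
function field of a projective manifold `X` with a dominant rational map `Z ⇢ X` of finite degree. Let
`B` be a set of indices such that twice the number of the `i`-th coordinates on a general fibre is at
most `c i + 1` for `i ∈ B`, and assume that for every set `Q` of indices disjoint from `B` the number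
`r(Q)` of the points of a general fibre with the same coordinates outside `Q` as a given one satisfies
`r(Q) = 1` or `2 r(Q) - 1 ≤ ∑ j ∈ Q, c j`. Let `h` be the sum of the dimensions of the factors
which are not elliptic curves.

Then the canonical map of `X` has an image of dimension at least `h`. Let `X ⇢ Y` be any dominant rational
map to a projective manifold, `K ⊆ L` the function field of `Y`, `dim Y = p`, and let the generic fibre,
a variety over `K` with function field `L`, have dimension `q`. If the Kodaira dimension of the generic
fibre is at least `u ≥ 0` and the Kodaira dimension of `Y` is at least `v ≥ 0` then `u + v ≤ h`, so that the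
canonical map of `X` has an image of dimension at least `u + v`, and `κ(X) ≥ u + v`. -/
theorem result {k L M : Type} [Field k] [CharZero k] [IsAlgClosed k] [Field L] [Field M]
    [Algebra k L] [Algebra k M] [Algebra L M] [IsScalarTower k L M] [FiniteDimensional L M]
    (s : ℕ) (d : Fin s → ℕ) (W : Fin s → IntermediateField k M)
    (hess : ∀ i, Algebra.EssFiniteType k (W i)) (hd : ∀ i, Algebra.trdeg k (W i) = d i)
    (hM : Algebra.trdeg k M = (∑ i, d i : ℕ)) (hsup : ⨆ i, W i = ⊤) (c : Fin s → ℕ)
    (hW : ∀ i, (ImageGe k (W i) (d i) 1 (d i) ∧ (c i = 0 ∨ Separates k (W i) (d i) (c i + 1))) ∨
      (IsFF k (W i) ∧ GonalityGe k (W i) (c i + 2)))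
    (B : Finset (Fin s)) (hB : ∀ i ∈ B, 2 * coordinates L (W i) ≤ c i + 1)
    (hQ : ∀ Q : Finset (Fin s), Disjoint Q B →
      agreeing L W Q = 1 ∨ 2 * agreeing L W Q ≤ 1 + ∑ j ∈ Q, c j) :
    ImageGe k L (∑ i, d i) 1 (nonEllipticDim d W) ∧
    ∀ (K : IntermediateField k L) (p q u v : ℕ), Algebra.EssFiniteType k K →
      Algebra.trdeg k K = p → Algebra.trdeg K L = q → KodairaGe K L q u → KodairaGe k K p v →
      u + v ≤ nonEllipticDim d W ∧ ImageGe k L (∑ i, d i) 1 (u + v) := by
  obtain ⟨h1, h2⟩ := Q36.IK.iitaka_dom (L := L) W hd hM hsup hW B hB hQ
  refine ⟨h1, fun K p q u v hess' hK hL hF hY => ?_⟩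
  obtain ⟨m, -, hF⟩ := hF
  obtain ⟨m', hm', hY⟩ := hY
  have h4 := h2 K p q hK hL m m' u v hm' hF hY
  exact ⟨h4, Q36.IK.img_mono h4 h1⟩

end Pool.Agent.Results.MP_f72953_ag.FibrationsOfDominated
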