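import Pool.Agent.Q36.IK.Hb

/-!
# Iitaka's conjecture for the fibrations of quotients of products of curves: the system `|48 K_X|`

Let `C 1, ..., C n` be curves, `G` a finite group acting on `Z = C 1 × ... × C n` (it may permute the
factors and may have fixed points), and `X` a projective manifold birational to `Z / G`. Assume
`MixedPos`: for some `N ≥ 2` the fixed locus of each `g ≠ 1` in `G` is empty or of codimension at least
`N`, and for each `i`: `N ≥ 7` (`5` if `3` does not divide the order of `G`, `4` if the order is odd), or
the quotient of `C i` by its stabilizer is irrational or has at least `5` branch points (`4` if `C i`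
is elliptic), or it has an orbifold divisor of positive degree (nonnegative degree if `C i` is elliptic)
with coefficients at most `1 - 1 / N`, or `C i` is rational. For instance `G` may act freely.

The theorem: Iitaka's conjecture holds for every fibration `X ⇢ Y`, of any relative dimension, with
general fibre `F`, and effectively: if `κ(F), κ(Y) ≥ 0` then none of the curves is rational, and

  `κ(F) + κ(Y) ≤ h ≤ dim φ_{|m K_X|}(X)`,  `h` the number of the curves `C i` which are not elliptic,

for all `m ≥ 48` divisible by `12` (one system `|48 K_X|` for all dimensions, groups, curves and
fibrations), and for `m = 42` if none of the curves is elliptic. The first inequality and the first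
assertion hold for all projective manifolds `X` which are dominated by the product by a rational map
of finite degree.

Proof. Let `M` be the function field of the product, `K` and `L` those of `Y` and `X`. Let `η` be a
pluricanonical form of `Y` and `ω` a relative pluricanonical form of `X ⇢ Y`. A regular vector field `D`
on one of the curves preserves all the valuation rings of `M` over the function field `N` of the
product of the other curves. So the value of `η` on the lifts of the vector fields has no poles over
`N`, and is thus a function on the product of the other curves. From this it follows that `D` maps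
`K` to `K`, if `η ≠ 0`, and that there is a frame of relative vector fields with the same properties.
So all quotients of pluricanonical forms of `Y`, and the quotients of the relative pluricanonical
forms up to a factor from `K`, are functions on the product of the curves which are not elliptic. If
one of the curves is rational one applies this to the two vector fields `D = d / dt` and `t D`; then
both `f` and `t ^ m f`, `f ≠ 0` the value of `ω` on a frame, are functions on the product of the other
curves, a contradiction. The second inequality is proved in `MP_9a2ae6_ag.OneSystemForQuotients`.
-/

set_option autoImplicit false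
set_option linter.overlappingInstances false

open FF IntermediateField Pool.Agent.W619.PQ Pool.Agent.W619.PL Pool.Agent.W619.TW
  Pool.Agent.W619.X Pool.Agent.W619.Y

namespace Pool.Agent.Results.MP_f72953_ag.FibrationsOfQuotients

/-- The map given by the sections of the `m`-th multiple of the canonical class, for the (regular
projective) varieties of dimension `n` over `k` with function field `K`, has an image of dimension at
least `h`: there are `h + 1` sections whose ratios to the first one are algebraically independent. -/
def ImageGe (k K : Type) [Field k] [Field K] [Algebra k K] (n m h : ℕ) : Prop :=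
  ∃ ω : Fin (h + 1) → (Fin n → Derivation k K K) → K,
    (∀ l, IsSec k K n (fun _ => False) {1} m 0 (ω l)) ∧
    ∃ D, (∀ l, ω l D ≠ 0) ∧ AlgebraicIndependent k (fun l : Fin h => ω l.succ D / ω 0 D)

/-- The Kodaira dimension of the (regular projective) varieties of dimension `n` over `k` with function
field `K` is at least `h ≥ 0`. -/
def KodairaGe (k K : Type) [Field k] [Field K] [Algebra k K] (n h : ℕ) : Prop :=
  ∃ m, 1 ≤ m ∧ ImageGe k K n m h

/-- **Iitaka's conjecture for the fibrations of dominated varieties and of quotients.** Let `F i`
(`i < n`) be the function fields of curves `C i` over an algebraically closed field `k` of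
characteristic zero, `M`, of transcendence degree `n`, the function field of the product of the
curves, and `h` the number of the curves which are not elliptic.

(1) Let `X` be a projective manifold, with function field `L`, which is dominated by the product by a
rational map of finite degree, and `X ⇢ Y` a dominant rational map to a projective manifold with
function field `K ⊆ L`, `dim Y = p`, `dim X - dim Y = q`. If the Kodaira dimension of the generic fibre,
a variety over `K` with function field `L`, is at least `u ≥ 0`, and the Kodaira dimension of `Y` is at
least `v ≥ 0`, then none of the curves is rational, and `u + v ≤ h`.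

(2) Let `G` be a finite group of automorphisms of `M` which permutes the curves through `σ` such that
`MixedPos` holds, and let `X` be birational to the quotient of the product by `G`. Then in the situation
of (1) the `m`-canonical map of `X` has an image of dimension at least `u + v` for all `m ≥ 48` divisible
by `12`, and for `m = 42` if none of the curves is elliptic; so `κ(X) ≥ u + v`. -/
theorem result {k M : Type} [Field k] [CharZero k] [IsAlgClosed k] [Field M] [Algebra k M]
    (n : ℕ) (hM : Algebra.trdeg k M = n) (F : Fin n → IntermediateField k M)
    (hF : ∀ i, IsFF k (F i)) (hsup : ⨆ i, F i = ⊤) :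
    (∀ (L : Type) [Field L] [Algebra k L] [Algebra L M] [IsScalarTower k L M]
      [FiniteDimensional L M] (K : IntermediateField k L) (p q u v : ℕ),
      Algebra.EssFiniteType k K → Algebra.trdeg k K = p → Algebra.trdeg K L = q →
      KodairaGe K L q u → KodairaGe k K p v →
      (∀ i, ¬ ∃ t : F i, k⟮t⟯ = ⊤) ∧ u + v ≤ {i | ¬ IsElliptic (F i)}.ncard) ∧
    (∀ (G : Subgroup (M ≃ₐ[k] M)) [Finite G] (σ : G →* Equiv.Perm (Fin n)),
      (∀ (g : G) i, ∀ z ∈ F i, (g : M ≃ₐ[k] M) z ∈ F (σ g i)) → MixedPos G σ F →
      ∀ (K : IntermediateField k (fixedField G)) (p q u v : ℕ),
      Algebra.EssFiniteType k K → Algebra.trdeg k K = p → Algebra.trdeg K (fixedField G) = q →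
      KodairaGe K (fixedField G) q u → KodairaGe k K p v →
      ∀ m : ℕ, ((48 ≤ m ∧ 12 ∣ m) ∨ (m = 42 ∧ ∀ i, ¬ IsElliptic (F i))) →
        ImageGe k (fixedField G) n m (u + v)) := by
  have main : ∀ (L : Type) [Field L] [Algebra k L] [Algebra L M] [IsScalarTower k L M]
      [FiniteDimensional L M] (K : IntermediateField k L) (p q u v : ℕ),
      Algebra.EssFiniteType k K → Algebra.trdeg k K = p → Algebra.trdeg K L = q →
      KodairaGe K L q u → KodairaGe k K p v →
      (∀ i, ¬ ∃ t : F i, k⟮t⟯ = ⊤) ∧ u + v ≤ {i | ¬ IsElliptic (F i)}.ncard := by
    intro L _ _ _ _ _ K p q u v hess' hK hL hf hb
    obtain ⟨m, hm, hf⟩ := hf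
    obtain ⟨m', hm', hb⟩ := hb
    exact Q36.IK.iitaka_curves F hM hsup K hK hL hm hm' hf hb
  refine ⟨main, fun G _ σ hσ h K p q u v hess' hK hL hf hb m hm => ?_⟩
  have hfin : FiniteDimensional (fixedField G) M := by
    have hGal : IsGaloisGroup G (fixedField G) M := isGaloisGroup_fixed G
    exact IsGaloisGroup.finiteDimensional G (fixedField G) M
  have halg : Algebra.IsAlgebraic ↥(⨆ i, F i) M := by
    rw [hsup]
    exact ⟨fun z => isAlgebraic_algebraMap (⟨z, trivial⟩ : (⊤ : IntermediateField k M))⟩
  obtain ⟨h1, h2⟩ := main (fixedField G) K p q u v hess' hK hL hf hb
  have hn0 : Algebra.trdeg k M = (0 + n : ℕ) := by rw [hM, zero_add]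
  have h3 := Q36.PT.mixed48 hn0 F halg G σ hσ h h1 m hm
  rw [zero_add] at h3
  exact Q36.IK.img_mono h2 h3

end Pool.Agent.Results.MP_f72953_ag.FibrationsOfQuotients
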